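import Pool.Agent.Helper63.TH.Goals

/-!
# Threshold project (MP_705522_gt), packet PW: `√n u^(n-1) ≤ 2 u^3`
-/

set_option autoImplicit false

namespace Pool.Agent.Helper56.TH

theorem pw_aux (u : ℝ) (h0 : 0 ≤ u) (h1 : u ≤ 0.89) : ∀ m : ℕ,
    √((m + 4 : ℕ) : ℝ) * u ^ (m + 3) ≤ 2 * u ^ 3 := by
  intro m
  induction m with
  | zero =>
    have h4 : √((0 + 4 : ℕ) : ℝ) = 2 := by
      rw [show ((0 + 4 : ℕ) : ℝ) = 2 ^ 2 by norm_num]
      exact Real.sqrt_sq (by norm_num)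
    rw [h4]
  | succ m ih =>
    refine le_trans ?_ ih
    have hm : (0 : ℝ) ≤ (m : ℝ) := Nat.cast_nonneg m
    have hs : √((m + 1 + 4 : ℕ) : ℝ) * u ≤ √((m + 4 : ℕ) : ℝ) := by
      refine Real.le_sqrt_of_sq_le ?_
      rw [mul_pow, Real.sq_sqrt (Nat.cast_nonneg _)]
      push_cast
      have hu : u ^ 2 ≤ 0.7921 := by nlinarith
      nlinarith
    calc √((m + 1 + 4 : ℕ) : ℝ) * u ^ (m + 1 + 3)
        = √((m + 1 + 4 : ℕ) : ℝ) * u * u ^ (m + 3) := by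
          rw [show m + 1 + 3 = (m + 3) + 1 by ring, pow_succ]; ring
      _ ≤ √((m + 4 : ℕ) : ℝ) * u ^ (m + 3) :=
          mul_le_mul_of_nonneg_right hs (pow_nonneg h0 _)

theorem gPW : Pool.Agent.Helper63.TH.GPW := by
  intro n u hn h0 h1
  obtain ⟨m, rfl⟩ := Nat.exists_eq_add_of_le hn
  have h := pw_aux u h0 h1 m
  rw [show 4 + m - 1 = m + 3 by omega, show 4 + m = m + 4 by omega]
  exact h

end Pool.Agent.Helper56.TH
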